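import Pool.Agent.Helper78.DR.Trig
import Pool.Agent.Helper2.Ann.LowLying

/-!
# From `DR.Sol` to the functional equations `Ann.FE` of the analysis
-/

set_option autoImplicit false

namespace DR
open Polynomial Complex

noncomputable section

variable {n : ℕ} {d : ℂ[X]}

/-- the eigenvalue as a function of the spectral variable -/
def dS (d : ℂ[X]) (s : ℂ) : ℂ := d.eval (pp s)

theorem sh_eq : Ann.sh = aa := by
  rw [Ann.sh, aa, mul_comm]

/-- the polynomial in `T = i tanh s` -/
def polyT (d : ℂ[X]) : ℂ[X] := d.comp (C (1 / 2) - C ((Real.sqrt 3 / 2 : ℝ) : ℂ) * X)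

theorem dS_eq (d : ℂ[X]) : dS d = Ann.dT (polyT d) := by
  funext s
  rw [dS, Ann.dT, polyT, eval_comp, pp]
  simp only [eval_sub, eval_C, eval_mul, eval_X]
  congr 1
  ring

theorem yf_eq (d : ℂ[X]) : Ann.yf (dS d) = yf d := by
  funext s
  rw [Ann.yf, yf, sh_eq]
  rfl

theorem Sol.fe (h : Sol n d) : Ann.FE (2 * n + 2) (dS d) where
  diff := fun s hs => by rw [dS_eq]; exact Ann.dT_diff _ hs
  bdd := by rw [dS_eq]; exact Ann.dT_bdd _
  ymul := fun t => by
    rw [yf_eq, sh_eq]
    have h0 : Complex.cosh (t : ℂ) ≠ 0 := Ann.cosh_ne (by simp; positivity)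
    have h1 : Complex.cosh ((t : ℂ) + 2 * aa) ≠ 0 := by
      apply Ann.cosh_ne
      have : ((t : ℂ) + 2 * aa).im = Real.pi / 3 := by
        simp [aa]
        ring
      rw [this, abs_of_pos (by positivity)]
      linarith [Real.pi_pos]
    have h2 : Complex.cosh ((t : ℂ) - 2 * aa) ≠ 0 := by
      apply Ann.cosh_ne
      have : ((t : ℂ) - 2 * aa).im = -(Real.pi / 3) := by
        simp [aa]
        ring
      rw [this, abs_neg, abs_of_pos (by positivity)]
      linarith [Real.pi_pos]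
    exact h.yy_rel h0 h1 h2
  ord := by rw [yf_eq]; exact h.order

/-- real polynomials give real functions -/
theorem Sol.real {d : ℝ[X]} (h : Sol n (d.map (algebraMap ℝ ℂ))) :
    Ann.IsRealF (dS (d.map (algebraMap ℝ ℂ))) := by
  have h1 : polyT (d.map (algebraMap ℝ ℂ)) =
      (d.comp (C (1 / 2) - C (Real.sqrt 3 / 2) * X)).map (algebraMap ℝ ℂ) := by
    rw [polyT, Polynomial.map_comp]
    simp
  rw [dS_eq, h1]
  refine Ann.dT_real _ fun x => ?_
  rw [eval_comp, eval_comp]
  simp only [eval_sub, eval_C, eval_mul, eval_X]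
  have h2 := h.pal (1 / 2 + Real.sqrt 3 / 2 * x : ℝ)
  have h3 : ∀ y : ℝ, (d.map (algebraMap ℝ ℂ)).eval (y : ℂ) = ((d.eval y : ℝ) : ℂ) := by
    intro y
    rw [eval_map_algebraMap]
    exact (Polynomial.aeval_algebraMap_apply ℂ y d).trans rfl
  rw [← ofReal_one, ← ofReal_sub, h3, h3] at h2
  have h4 := ofReal_injective h2
  rw [← show 1 / 2 + Real.sqrt 3 / 2 * x = 1 / 2 - Real.sqrt 3 / 2 * -x by ring] at *
  rw [← h4]
  congr 1
  ring

/-- the value at `s = 0` is the value at `p = 1/2` -/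
theorem dS_zero (d : ℂ[X]) : dS d 0 = d.eval (1 / 2) := by
  rw [dS, pp, Complex.tanh_zero, mul_zero, sub_zero]

end
end DR
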