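import Pool.Agent.Helper9.DR.Joint

/-!
# The value of the double row matrix at the braid point

At `p ^ 2 - p + 1 = 0` the double row matrix `Dh n k p` is a ring around the `n` strands; it can be
pulled over cups, hence it is a scalar on the patterns with `l` defects: `1, 1, -2` for
`l ≡ 0, 1, 2 mod 3`.
-/

set_option autoImplicit false

namespace DR
open Module Finset Pool.Agent.Helper9.DR

variable {K : Type*} [Field K] {V : Type*} [AddCommGroup V] [Module K V] (T : Tower K V)

namespace Braid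

/-- `k i = k j e (j+1) ... e i` in the form of a step, and the far commutation of caps -/
theorem ke_far {i j : ℕ} (h : j + 2 ≤ i) : T.k i * T.e j = T.e j * T.k i := by
  obtain ⟨m, rfl⟩ : ∃ m, i = j + 2 + m := ⟨i - (j + 2), by omega⟩
  induction m with
  | zero =>
    -- `k (j+2) = k (j+1) e (j+2)`, `k (j+1) = k j e (j+1)`
    have a1 : T.k j * T.e (j + 1) * T.e (j + 2) = T.k (j + 2) := by
      rw [T.ke1, T.ke1 (j + 1)]
    calc T.k (j + 2) * T.e j = T.k j * T.e (j + 1) * (T.e (j + 2) * T.e j) := by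
          rw [← a1, mul_assoc]
      _ = T.k j * T.e (j + 1) * T.e j * T.e (j + 2) := by
          rw [T.ecomm (le_refl (j + 2))]; simp only [mul_assoc]
      _ = T.k j * T.e (j + 2) := by
          have : T.k j * T.e (j + 1) * T.e j = T.k j := by
            rw [T.e_def j, ← mul_assoc, T.kec, one_mul]
          rw [this]
      _ = T.e j * T.k j := T.ke le_rfl
      _ = T.e j * T.k (j + 2) := by
          rw [← a1, ← mul_assoc, ← mul_assoc, ← T.ke le_rfl, mul_assoc (T.k j), mul_assoc (T.k j),
            T.eee']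
  | succ m ih =>
    have a1 : T.k (j + 2 + m) * T.e (j + 2 + m + 1) = T.k (j + 2 + m + 1) := T.ke1 _
    rw [show j + 2 + (m + 1) = j + 2 + m + 1 by ring, ← a1, mul_assoc, T.ecomm (by omega),
      ← mul_assoc, ih (by omega), mul_assoc]

theorem ec_far {i j : ℕ} (h : j + 2 ≤ i) : T.e j * T.c i = T.c i * T.e j := by
  obtain ⟨m, rfl⟩ : ∃ m, i = j + 2 + m := ⟨i - (j + 2), by omega⟩
  induction m with
  | zero =>
    have a1 : T.e (j + 2) * T.e (j + 1) * T.c j = T.c (j + 2) := by
      rw [mul_assoc, T.e1c, T.e1c (j + 1)]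
    calc T.e j * T.c (j + 2) = (T.e j * T.e (j + 2)) * T.e (j + 1) * T.c j := by
          rw [← a1]; simp only [mul_assoc]
      _ = T.e (j + 2) * (T.e j * T.e (j + 1) * T.c j) := by
          rw [← T.ecomm (le_refl (j + 2))]; simp only [mul_assoc]
      _ = T.e (j + 2) * T.c j := by
          have : T.e j * T.e (j + 1) * T.c j = T.c j := by
            rw [T.e_def j, mul_assoc, mul_assoc, ← mul_assoc (T.k j), T.kec, mul_one]
          rw [this]
      _ = T.c j * T.e j := T.ec le_rfl
      _ = T.c (j + 2) * T.e j := by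
          rw [← a1, mul_assoc, ← T.ec le_rfl, ← mul_assoc, T.eee']
  | succ m ih =>
    have a1 : T.e (j + 2 + m + 1) * T.c (j + 2 + m) = T.c (j + 2 + m + 1) := T.e1c _
    rw [show j + 2 + (m + 1) = j + 2 + m + 1 by ring, ← a1, ← mul_assoc, ← T.ecomm (by omega),
      mul_assoc, ih (by omega), mul_assoc]

theorem Xc_far {i j : ℕ} (h : j + 2 ≤ i) (p : K) : T.X j p * T.c i = T.c i * T.X j p := by
  simp only [Tower.X_def, add_mul, mul_add, smul_mul_assoc, mul_smul_comm, mul_one, one_mul,
    ec_far T h]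

variable {p : K} (hp : p ^ 2 - p + 1 = 0)
include hp

theorem XXc (i : ℕ) : T.X (i + 1) p * T.X i p * T.c (i + 1) = T.c i := by
  have a1 : T.e i * T.c (i + 1) = T.c i := by rw [T.e_def, mul_assoc, T.kcr, mul_one]
  have a2 : T.e (i + 1) * T.e i * T.c (i + 1) = T.c (i + 1) := by rw [mul_assoc, a1, T.e1c]
  simp only [Tower.X_def, add_mul, mul_add, smul_mul_assoc, mul_smul_comm, mul_one, one_mul,
    T.e_c, a1, a2]
  match_scalars
  · linear_combination hp
  · linear_combination -hp

theorem XXc' (i : ℕ) : T.X i p * T.X (i + 1) p * T.c i = T.c (i + 1) := by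
  have a2 : T.e i * T.e (i + 1) * T.c i = T.c i := by
    rw [T.e_def i, mul_assoc, mul_assoc, ← mul_assoc (T.k i), T.kec, mul_one]
  simp only [Tower.X_def, add_mul, mul_add, smul_mul_assoc, mul_smul_comm, mul_one, one_mul,
    T.e_c, T.e1c, a2]
  match_scalars
  · linear_combination hp
  · linear_combination -hp

/-- the dressed strand can be pulled over a cup -/
theorem Ah_c (m : ℕ) : ∀ k i : ℕ, k + 1 ≤ i → i ≤ k + m + 1 →
    T.Ah (m + 2) k p * T.c i = T.c i * T.Ah m k p := by
  induction m with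
  | zero =>
    intro k i h1 h2
    obtain rfl : i = k + 1 := by omega
    rw [Tower.Ah_succ, Tower.Ah_succ]
    have e0 : T.Ah 0 (k + 1 + 1) p = 1 := rfl
    have e1 : T.Ah 0 k p = 1 := rfl
    rw [e0, e1, mul_one, mul_one]
    calc T.X k p * (T.X (k + 1) p * T.X (k + 1) p) * T.X k p * T.c (k + 1)
        = T.X k p * T.X (k + 1) p * (T.X (k + 1) p * T.X k p * T.c (k + 1)) := by
          simp only [mul_assoc]
      _ = _ := by rw [XXc T hp, XXc' T hp]
  | succ m ih =>
    intro k i h1 h2
    rcases Nat.lt_or_ge (k + 1) i with h | h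
    · have h3 : T.X k p * T.c i = T.c i * T.X k p := Xc_far T h p
      rw [Tower.Ah_succ, mul_assoc, h3, ← mul_assoc, mul_assoc (T.X k p),
        ih (k + 1) i (by omega) (by omega), ← mul_assoc, h3, Tower.Ah_succ]
      simp only [mul_assoc]
    · obtain rfl : i = k + 1 := by omega
      rw [Tower.Ah_succ, Tower.Ah_succ]
      have h4 : T.Ah (m + 1) (k + 1 + 1) p * T.c k = T.c k * T.Ah (m + 1) k p :=
        T.Ac _ _ _ (le_refl k)
      calc T.X k p * (T.X (k + 1) p * T.Ah (m + 1) (k + 1 + 1) p * T.X (k + 1) p) * T.X k p *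
            T.c (k + 1)
          = T.X k p * T.X (k + 1) p * T.Ah (m + 1) (k + 1 + 1) p *
            (T.X (k + 1) p * T.X k p * T.c (k + 1)) := by simp only [mul_assoc]
        _ = T.X k p * T.X (k + 1) p * T.c k * T.Ah (m + 1) k p := by
            rw [XXc T hp, mul_assoc _ (T.Ah (m + 1) (k + 1 + 1) p), h4]; simp only [mul_assoc]
        _ = _ := by rw [XXc' T hp]

/-- the ring can be pulled over a cup -/
theorem Dh_c (n : ℕ) : ∀ k i : ℕ, k ≤ i → i ≤ k + n →
    T.Dh (n + 2) k p * T.c i = T.c i * T.Dh n k p := by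
  induction n with
  | zero =>
    intro k i h1 h2
    obtain rfl : i = k := by omega
    rw [Tower.Dh_succ, Tower.Dh_succ, Tower.Ah_succ]
    have e0 : T.Ah 0 (i + 1) p = 1 := rfl
    have e1 : T.Dh 0 i p = 1 := rfl
    have e2 : T.Dh 0 (i + 1 + 1) p = 1 := rfl
    rw [e0, e1, e2, mul_one, mul_one]
    simp only [add_mul, smul_mul_assoc, one_mul, mul_assoc, T.X_c]
    match_scalars
    ring
  | succ n ih =>
    intro k i h1 h2
    rcases Nat.lt_or_ge k i with h | h
    · rw [Tower.Dh_succ, add_mul, smul_mul_assoc, smul_mul_assoc,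
        Ah_c T hp n k i (by omega) (by omega), ih (k + 1) i (by omega) (by omega), Tower.Dh_succ,
        mul_add, mul_smul_comm, mul_smul_comm]
    · obtain rfl : i = k := by omega
      have h3 : T.Dh (n + 1) (i + 2) p * T.c i = T.c i * T.Dh (n + 1) i p :=
        T.Dc _ _ _ (le_refl i)
      have h4 : T.k i * T.Ah (n + 1) (i + 1) p * T.c i = T.Dh (n + 1) i p := T.cap _ _ _ i
      rw [Tower.Dh_succ, Tower.Dh_succ, Tower.Ah_succ]
      have h5 : T.X i p * T.Ah (n + 1) (i + 1) p * T.X i p * T.c i =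
          p • (T.Ah (n + 1) (i + 1) p * T.c i) + (1 - p) • (T.c i * T.Dh (n + 1) i p) := by
        rw [mul_assoc _ (T.X i p), T.X_c, Tower.X_def]
        simp only [add_mul, smul_mul_assoc, one_mul]
        rw [← h4, T.e_def]
        simp only [mul_assoc]
      rw [add_mul, smul_mul_assoc, smul_mul_assoc, h5, add_mul, smul_mul_assoc, smul_mul_assoc,
        show i + 1 + 1 = i + 2 by ring, h3]
      match_scalars
      · linear_combination (1 - (1 - p) * (1 - p)) * hp
      · linear_combination (-(1 - (1 - p) * (1 - p))) * hp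

omit hp in
/-- the value on `l` defects, as a recursion -/
def theta (p : K) : ℕ → K
  | 0 => 1
  | l + 1 => (1 - (1 - p) * (1 - p)) * p ^ (2 * l) + (1 - p) * (1 - p) * theta p l

omit hp in
/-- vectors generated from a vector with `l` defects on the strands `k, ..., k + l - 1` by cup
insertions; `Gen T k l n v`: `v` is a pattern with `n` strands `k, ..., k + n - 1` -/
inductive Gen (k l : ℕ) : ℕ → V → Prop
  | base (v : V) (h : ∀ i, k ≤ i → i + 2 ≤ k + l → T.e i v = 0) : Gen k l l v
  | cup (n : ℕ) (v : V) (i : ℕ) (h1 : k ≤ i) (h2 : i ≤ k + n) (hv : Gen k l n v) :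
      Gen k l (n + 2) (T.c i v)

omit hp in
theorem Ah_base (m : ℕ) : ∀ (k : ℕ) (v : V), (∀ i, k ≤ i → i + 1 ≤ k + m → T.e i v = 0) →
    T.Ah m k p v = p ^ (2 * m) • v := by
  induction m with
  | zero =>
    intro k v _
    have : T.Ah 0 k p = 1 := rfl
    rw [this]
    simp
  | succ m ih =>
    intro k v h
    have hX : T.X k p v = p • v := by
      rw [Tower.X_def, LinearMap.add_apply, LinearMap.smul_apply, LinearMap.smul_apply,
        h k le_rfl (by omega), smul_zero, add_zero]
      rfl
    rw [Tower.Ah_succ, Module.End.mul_apply, Module.End.mul_apply, hX, map_smul,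
      ih (k + 1) v (fun i h1 h2 => h i (by omega) (by omega)), map_smul, map_smul, hX, smul_smul,
      smul_smul]
    congr 1
    ring

omit hp in
theorem Dh_base (l : ℕ) : ∀ (k : ℕ) (v : V), (∀ i, k ≤ i → i + 2 ≤ k + l → T.e i v = 0) →
    T.Dh l k p v = theta p l • v := by
  induction l with
  | zero =>
    intro k v _
    have : T.Dh 0 k p = 1 := rfl
    rw [this, theta, one_smul]
    rfl
  | succ l ih =>
    intro k v h
    rw [Tower.Dh_succ, LinearMap.add_apply, LinearMap.smul_apply, LinearMap.smul_apply,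
      Ah_base T l k v (fun i h1 h2 => h i h1 (by omega)),
      ih (k + 1) v (fun i h1 h2 => h i (by omega) (by omega)), smul_smul, smul_smul, ← add_smul]
    rfl

/-- **the ring is a scalar on the patterns with `l` defects** -/
theorem Dh_gen {k l n : ℕ} {v : V} (h : Gen T k l n v) : T.Dh n k p v = theta p l • v := by
  induction h with
  | base v h => exact Dh_base T l k v h
  | cup n v i h1 h2 hv ih =>
    have := congrArg (fun Z : End K V => Z v) (Dh_c T hp n k i h1 h2)
    simp only [Module.End.mul_apply] at this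
    rw [this, ih, map_smul]

/-- the closed form: `θ_l = - (ω ^ (l+1) + ω ^ (2(l+1)))`, `ω = p ^ 2` -/
theorem theta_eq (l : ℕ) : theta p l = -(p ^ (2 * (l + 1)) + p ^ (4 * (l + 1))) := by
  have h3 : p ^ 3 = -1 := by linear_combination (p + 1) * hp
  have h6 : p ^ 6 = 1 := by linear_combination (p ^ 3 - 1) * h3
  induction l with
  | zero =>
    rw [theta]
    linear_combination (p ^ 2 + p + 1) * hp
  | succ l ih =>
    rw [theta, ih]
    have e1 : p ^ (2 * (l + 1)) = p ^ 2 * p ^ (2 * l) := by ring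
    have e2 : p ^ (2 * (l + 1 + 1)) = p ^ 4 * p ^ (2 * l) := by ring
    have e3 : p ^ (4 * (l + 1)) = p ^ 4 * p ^ (4 * l) := by ring
    have e4 : p ^ (4 * (l + 1 + 1)) = p ^ 8 * p ^ (4 * l) := by ring
    rw [e1, e2, e3, e4]
    have h1 : (1 - p) = -p ^ 2 := by linear_combination hp
    rw [h1]
    linear_combination (-p ^ (2 * l)) * h6

/-- periodicity -/
theorem theta_add (l : ℕ) : theta p (l + 3) = theta p l := by
  have h3 : p ^ 3 = -1 := by linear_combination (p + 1) * hp
  rw [theta_eq hp, theta_eq hp]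
  have e2 : p ^ (2 * (l + 3 + 1)) = (p ^ 3) ^ 2 * p ^ (2 * (l + 1)) := by ring
  have e4 : p ^ (4 * (l + 3 + 1)) = (p ^ 3) ^ 4 * p ^ (4 * (l + 1)) := by ring
  rw [e2, e4, h3]
  ring

theorem theta_two : theta p 2 = -2 := by
  rw [theta_eq hp]
  have h3 : p ^ 3 = -1 := by linear_combination (p + 1) * hp
  have e2 : p ^ (2 * (2 + 1)) = (p ^ 3) ^ 2 := by ring
  have e4 : p ^ (4 * (2 + 1)) = (p ^ 3) ^ 4 := by ring
  rw [e2, e4, h3]
  ring

theorem theta_one : theta p 1 = 1 := by
  rw [theta_eq hp]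
  have h3 : p ^ 3 = -1 := by linear_combination (p + 1) * hp
  have e2 : p ^ (2 * (1 + 1)) = p ^ 3 * p := by ring
  have e4 : p ^ (4 * (1 + 1)) = (p ^ 3) ^ 2 * p ^ 2 := by ring
  rw [e2, e4, h3]
  linear_combination -hp

omit hp in
theorem theta_zero : theta p 0 = 1 := rfl

/-- `1, 1, -2` -/
theorem theta_mod (l : ℕ) : theta p l = if l % 3 = 2 then -2 else 1 := by
  obtain ⟨q, r, hr, rfl⟩ : ∃ q r, r < 3 ∧ l = r + 3 * q := ⟨l / 3, l % 3, Nat.mod_lt _ (by norm_num),
    by omega⟩
  have h1 : ∀ q, theta p (r + 3 * q) = theta p r := by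
    intro q
    induction q with
    | zero => rfl
    | succ q ih => rw [show r + 3 * (q + 1) = r + 3 * q + 3 by ring, theta_add hp, ih]
  rw [h1]
  have h2 : (r + 3 * q) % 3 = r := by omega
  rw [h2]
  interval_cases r
  · simp [theta_zero]
  · simp [theta_one hp]
  · simp [theta_two hp]

end Braid

/-- the spectral family with the braid value: `U` sits in the tower inside the span of the patterns
with `l` defects -/
theorem spec_braid {V : Type*} [AddCommGroup V] [Module ℂ V] (T : Tower ℂ V)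
    {U : Type*} [AddCommGroup U] [Module ℂ U] [FiniteDimensional ℂ U]
    (n k l : ℕ) (j : U →ₗ[ℂ] V) (hj : Function.Injective j) (DU : ℂ → End ℂ U)
    (h : ∀ p u, j (DU p u) = T.Dh n k p (j u))
    (hU : ∀ u, j u ∈ Submodule.span ℂ {v | Braid.Gen T k l n v}) :
    ∃ d : Fin (finrank ℂ U) → Polynomial ℂ, (∀ i, Sol n (d i)) ∧
      (∀ i, ∀ p : ℂ, p ^ 2 - p + 1 = 0 → (d i).eval p = if l % 3 = 2 then -2 else 1) ∧
      (∀ i, ∃ v : U, v ≠ 0 ∧ ∀ p, DU p v = (d i).eval p • v) ∧
      ∀ w : List ℂ, LinearMap.trace ℂ U ((w.map DU).prod) =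
        ∑ i, (w.map (fun p => (d i).eval p)).prod := by
  obtain ⟨d, h1, h2, h3⟩ := spec_family T n k j hj DU h
  refine ⟨d, h1, fun i p hp => ?_, h2, h3⟩
  obtain ⟨v, hv, hd⟩ := h2 i
  have h4 : T.Dh n k p (j v) = Braid.theta p l • j v := by
    have := hU v
    generalize j v = x at this
    induction this using Submodule.span_induction with
    | mem x hx => exact Braid.Dh_gen T hp hx
    | zero => simp
    | add x y _ _ hx hy => rw [map_add, hx, hy, smul_add]
    | smul a x _ hx => rw [map_smul, hx, smul_comm]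
  rw [← h, hd, map_smul, Braid.theta_mod hp] at h4
  have h5 : j (((d i).eval p - if l % 3 = 2 then -2 else 1) • v) = 0 := by
    rw [map_smul, sub_smul, h4, sub_self]
  have h6 := hj (h5.trans (map_zero j).symm)
  exact sub_eq_zero.1 ((smul_eq_zero.1 h6).resolve_right hv)

end DR
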