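import Mathlib

/-!
# The scalar double row functional relations (bond percolation, loop weight one)

`p` is the tile probability of the double row transfer matrix `D(p)`; crossing is `p ↦ 1 - p`,
the shift by the crossing parameter is `σ p = 1 - 1/p`, of order three, `σ (σ p) = 1/(1-p)`.
`DR.Sol n d`: `d` is a polynomial of degree `≤ 2n`, symmetric, `d(1) = 1`, and
`y(p) = d(p) d(1-1/p) - 1` vanishes to order `2n+2` at `p = 1`.
The cubic relation `d d⁺ d⁻ = d + d⁺ + d⁻ - 2` follows.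
-/

set_option autoImplicit false

namespace DR
open Polynomial Finset

noncomputable section

/-- the scalar data of a joint eigenvalue of the double row matrices with `n` columns -/
structure Sol (n : ℕ) (d : ℂ[X]) : Prop where
  deg : d.natDegree ≤ 2 * n
  pal : ∀ p : ℂ, d.eval (1 - p) = d.eval p
  one : d.eval 1 = 1
  fus : ∃ Q : ℂ[X], ∀ p : ℂ, p ≠ 0 →
    p ^ (2 * n) * (d.eval p * d.eval (1 - 1 / p) - 1) = (1 - p) ^ (2 * n + 2) * Q.eval p

/-- `hm m P (p) = p ^ m * P (1 - 1/p)` -/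
def hm (m : ℕ) (P : ℂ[X]) : ℂ[X] :=
  ∑ k ∈ range (m + 1), C (P.coeff k) * ((X - 1) ^ k * X ^ (m - k))

theorem hm_eval {m : ℕ} {P : ℂ[X]} (h : P.natDegree ≤ m) {p : ℂ} (hp : p ≠ 0) :
    (hm m P).eval p = p ^ m * P.eval (1 - 1 / p) := by
  rw [hm, eval_finsetSum, P.eval_eq_sum_range' (Nat.lt_succ_of_le h), mul_sum]
  refine sum_congr rfl fun k hk => ?_
  have hk' : k ≤ m := Nat.lt_succ_iff.1 (mem_range.1 hk)
  simp only [eval_mul, eval_C, eval_pow, eval_sub, eval_X, eval_one]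
  have e : (1 - 1 / p) ^ k = (p - 1) ^ k / p ^ k := by
    rw [← div_pow]
    congr 1
    field_simp
  have e2 : p ^ m = p ^ k * p ^ (m - k) := by rw [← pow_add]; congr 1; omega
  rw [e, e2]
  have := pow_ne_zero k hp
  field_simp

theorem hm_eval_zero (m : ℕ) (P : ℂ[X]) : (hm m P).eval 0 = (-1) ^ m * P.coeff m := by
  rw [hm, eval_finsetSum, sum_range_succ]
  rw [sum_eq_zero]
  · simp [mul_comm]
  · intro k hk
    have hk' : m - k ≠ 0 := by have := mem_range.1 hk; omega
    simp [hk']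

theorem hm_natDegree_le (m : ℕ) (P : ℂ[X]) : (hm m P).natDegree ≤ m := by
  unfold hm
  refine natDegree_sum_le_of_forall_le _ _ fun k hk => ?_
  have hk' : k ≤ m := Nat.lt_succ_iff.1 (mem_range.1 hk)
  have h1 : ((X - 1 : ℂ[X]) ^ k).natDegree ≤ k := by
    have := natDegree_pow_le (p := (X - 1 : ℂ[X])) (n := k)
    have h2 : (X - 1 : ℂ[X]).natDegree = 1 := by
      have := natDegree_X_sub_C (1 : ℂ)
      simpa using this
    rw [h2] at this
    omega
  have h3 : ((X : ℂ[X]) ^ (m - k)).natDegree ≤ m - k := by simp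
  calc (C (P.coeff k) * ((X - 1) ^ k * X ^ (m - k)) : ℂ[X]).natDegree
      ≤ ((X - 1 : ℂ[X]) ^ k * X ^ (m - k)).natDegree := natDegree_C_mul_le _ _
    _ ≤ k + (m - k) := natDegree_mul_le_of_le h1 h3
    _ = m := by omega

theorem hm_coeff_top {m : ℕ} {P : ℂ[X]} (h : P.natDegree ≤ m) : (hm m P).coeff m = P.eval 1 := by
  rw [hm, finsetSum_coeff, P.eval_eq_sum_range' (Nat.lt_succ_of_le h)]
  refine sum_congr rfl fun k hk => ?_
  have hk' : k ≤ m := Nat.lt_succ_iff.1 (mem_range.1 hk)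
  rw [coeff_C_mul, one_pow]
  congr 1
  have e : m = k + (m - k) := by omega
  have h1 : ((X - 1 : ℂ[X]) ^ k * X ^ (m - k)).coeff m = ((X - 1 : ℂ[X]) ^ k).coeff k := by
    conv_lhs => rw [e]
    rw [show k + (m - k) - k = m - k by omega, coeff_mul_X_pow]
  rw [h1]
  have h2 : (X - 1 : ℂ[X]).Monic := by simpa using monic_X_sub_C (1 : ℂ)
  have h3 : ((X - 1 : ℂ[X]) ^ k).natDegree = k := by
    rw [h2.natDegree_pow]
    have := natDegree_X_sub_C (1 : ℂ)
    simp only [map_one] at this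
    rw [this, mul_one]
  have := (h2.pow k).coeff_natDegree
  rwa [h3] at this

/-- the rigidity lemma: a polynomial `A` for which `A / p^(2n)` is invariant under `σ` and vanishes
at `1` is zero -/
theorem rigid {n : ℕ} {A : ℂ[X]} (h1 : A.eval 1 = 0)
    (h : ∀ p : ℂ, p ≠ 0 → p ≠ 1 → p ^ (4 * n) * A.eval (1 - 1 / p) = (p - 1) ^ (2 * n) * A.eval p) :
    A = 0 := by
  by_contra hA
  set m := A.natDegree with hm_def
  set B := hm m A with hB
  have hB0 : B.eval 0 ≠ 0 := by
    rw [hB, hm_eval_zero]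
    refine mul_ne_zero (pow_ne_zero _ (by norm_num)) ?_
    rw [hm_def, coeff_natDegree]
    exact leadingCoeff_ne_zero.2 hA
  have hBne : B ≠ 0 := by
    rintro h0
    rw [h0] at hB0
    simp at hB0
  -- the polynomial identity
  have key : X ^ (4 * n) * B = X ^ m * ((X - 1) ^ (2 * n) * A) := by
    refine eq_of_infinite_eval_eq _ _ ?_
    refine Set.Infinite.mono (s := {p : ℂ | p ≠ 0 ∧ p ≠ 1}) ?_ ?_
    · rintro p ⟨hp0, hp1⟩
      simp only [Set.mem_ofPred_eq, eval_mul, eval_pow, eval_X, eval_sub, eval_one]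
      rw [hB, hm_eval le_rfl hp0, ← h p hp0 hp1]
      ring
    · have : {p : ℂ | p ≠ 0 ∧ p ≠ 1} = ({0, 1} : Set ℂ)ᶜ := by
        ext p
        simp [not_or]
      rw [this]
      exact Set.Finite.infinite_compl (Set.toFinite _)
  have hX1 : ((X - 1 : ℂ[X]) ^ (2 * n)) ≠ 0 := by
    apply pow_ne_zero
    have := X_sub_C_ne_zero (1 : ℂ)
    simpa using this
  have hdX1 : ((X - 1 : ℂ[X]) ^ (2 * n)).natDegree = 2 * n := by
    have h2 : (X - 1 : ℂ[X]).Monic := by simpa using monic_X_sub_C (1 : ℂ)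
    rw [h2.natDegree_pow]
    have := natDegree_X_sub_C (1 : ℂ)
    simp only [map_one] at this
    rw [this, mul_one]
  -- degrees
  have hBdeg : B.natDegree < m := by
    have hle : B.natDegree ≤ m := hm_natDegree_le m A
    refine lt_of_le_of_ne hle fun he => ?_
    have h2 : B.coeff m = 0 := by rw [hB, hm_coeff_top le_rfl, h1]
    rw [← he, coeff_natDegree] at h2
    exact hBne (leadingCoeff_eq_zero.1 h2)
  have hdeg : 4 * n + B.natDegree = m + (2 * n + m) := by
    have := congrArg natDegree key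
    rwa [natDegree_mul (pow_ne_zero _ X_ne_zero) hBne,
      natDegree_mul (pow_ne_zero _ X_ne_zero) (mul_ne_zero hX1 hA), natDegree_mul hX1 hA,
      natDegree_X_pow, natDegree_X_pow, hdX1] at this
  -- orders at zero
  have htr : 4 * n = m + A.natTrailingDegree := by
    have := congrArg natTrailingDegree key
    rw [natTrailingDegree_mul (pow_ne_zero _ X_ne_zero) hBne,
      natTrailingDegree_mul (pow_ne_zero _ X_ne_zero) (mul_ne_zero hX1 hA),
      natTrailingDegree_mul hX1 hA, natTrailingDegree_X_pow, natTrailingDegree_X_pow] at this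
    have hB' : B.natTrailingDegree = 0 := by
      rw [natTrailingDegree_eq_zero]
      right
      rwa [coeff_zero_eq_eval_zero]
    have hX' : ((X - 1 : ℂ[X]) ^ (2 * n)).natTrailingDegree = 0 := by
      rw [natTrailingDegree_eq_zero]
      right
      rw [coeff_zero_eq_eval_zero]
      simp
    omega
  have h3 : A.natTrailingDegree ≤ m := natTrailingDegree_le_natDegree A
  omega

variable {n : ℕ} {d : ℂ[X]}

theorem Sol.zero (h : Sol n d) : d.eval 0 = 1 := by
  have := h.pal 1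
  rwa [sub_self, h.one] at this

/-- `1/(1-p)` and `1-1/p` -/
theorem Sol.inv (h : Sol n d) (p : ℂ) :
    d.eval (1 / (1 - p)) = d.eval (1 - 1 / (1 - p)) := (h.pal _).symm

/-- **cubic relation** -/
theorem Sol.cubic (h : Sol n d) {p : ℂ} (hp0 : p ≠ 0) (hp1 : p ≠ 1) :
    d.eval p * d.eval (1 - 1 / p) * d.eval (1 / (1 - p)) =
      d.eval p + d.eval (1 - 1 / p) + d.eval (1 / (1 - p)) - 2 := by
  obtain ⟨Q, hQ⟩ := h.fus
  -- `A p = p^(2n) F p`
  set e : ℂ[X] := (hm (2 * n) d).comp (1 - X) with he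
  have he' : ∀ p : ℂ, p ≠ 1 → e.eval p = (1 - p) ^ (2 * n) * d.eval (1 / (1 - p)) := by
    intro p hp
    have h1 : (1 : ℂ) - p ≠ 0 := sub_ne_zero.2 (Ne.symm hp)
    rw [he, eval_comp, h.inv p]
    simp only [eval_sub, eval_one, eval_X]
    rw [hm_eval h.deg h1]
  set A : ℂ[X] := (1 - X) ^ 2 * e * Q - X ^ (2 * n) * (d - 2) - hm (2 * n) d with hA
  have hAe : ∀ p : ℂ, p ≠ 0 → p ≠ 1 → A.eval p = p ^ (2 * n) *
      (d.eval p * d.eval (1 - 1 / p) * d.eval (1 / (1 - p)) -
        (d.eval p + d.eval (1 - 1 / p) + d.eval (1 / (1 - p)) - 2)) := by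
    intro p hp0 hp1
    rw [hA]
    simp only [eval_sub, eval_mul, eval_pow, eval_one, eval_X, eval_ofNat]
    rw [he' p hp1, hm_eval h.deg hp0]
    have := hQ p hp0
    linear_combination (-d.eval (1 / (1 - p))) * this
  have hA1 : A.eval 1 = 0 := by
    rw [hA]
    simp only [eval_sub, eval_mul, eval_pow, eval_one, eval_X, eval_ofNat]
    rw [hm_eval h.deg one_ne_zero, h.one]
    norm_num
    rw [h.zero]
    norm_num
  have hA0 : A = 0 := by
    refine rigid (n := n) hA1 fun p hp0 hp1 => ?_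
    have h1 : (1 : ℂ) - p ≠ 0 := sub_ne_zero.2 (Ne.symm hp1)
    have h1' : p - 1 ≠ 0 := sub_ne_zero.2 hp1
    have s0 : (1 : ℂ) - 1 / p ≠ 0 := by
      rw [one_sub_div hp0]
      exact div_ne_zero h1' hp0
    have s1 : (1 : ℂ) - 1 / p ≠ 1 := by
      intro h2
      have : (1 : ℂ) / p = 0 := by linear_combination -h2
      rw [div_eq_zero_iff] at this
      rcases this with h3 | h3
      · exact one_ne_zero h3
      · exact hp0 h3
    rw [hAe _ s0 s1, hAe p hp0 hp1]
    have e1 : (1 : ℂ) - 1 / (1 - 1 / p) = 1 / (1 - p) := by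
      rw [one_sub_div hp0, one_div_div]
      field_simp
      ring
    have e2 : (1 : ℂ) / (1 - (1 - 1 / p)) = p := by
      rw [sub_sub_cancel, one_div_one_div]
    rw [e1, e2]
    have e3 : p ^ (4 * n) * (1 - 1 / p) ^ (2 * n) = (p - 1) ^ (2 * n) * p ^ (2 * n) := by
      rw [one_sub_div hp0, div_pow, show 4 * n = 2 * n + 2 * n by ring, pow_add]
      have := pow_ne_zero (2 * n) hp0
      field_simp
    linear_combination (d.eval p * d.eval (1 - 1 / p) * d.eval (1 / (1 - p)) -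
        (d.eval p + d.eval (1 - 1 / p) + d.eval (1 / (1 - p)) - 2)) * e3
  have h2 := hAe p hp0 hp1
  rw [hA0, eval_zero] at h2
  have h3 := (mul_eq_zero.1 h2.symm).resolve_left (pow_ne_zero _ hp0)
  linear_combination h3

/-- `y y = (1-d)²` -/
theorem Sol.yy (h : Sol n d) {p : ℂ} (hp0 : p ≠ 0) (hp1 : p ≠ 1) :
    (d.eval p * d.eval (1 - 1 / p) - 1) * (d.eval p * d.eval (1 / (1 - p)) - 1) =
      (1 - d.eval p) ^ 2 := by
  linear_combination (d.eval p) * h.cubic hp0 hp1

/-- the Green function is linear -/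
theorem Sol.green (h : Sol n d) {p : ℂ} (hp0 : p ≠ 0) (hp1 : p ≠ 1) (h0 : d.eval p ≠ 1)
    (h1 : d.eval (1 - 1 / p) ≠ 1) (h2 : d.eval (1 / (1 - p)) ≠ 1) :
    (1 - d.eval p)⁻¹ + (1 - d.eval (1 - 1 / p))⁻¹ + (1 - d.eval (1 / (1 - p)))⁻¹ = 1 := by
  have a0 : 1 - d.eval p ≠ 0 := sub_ne_zero.2 (Ne.symm h0)
  have a1 : 1 - d.eval (1 - 1 / p) ≠ 0 := sub_ne_zero.2 (Ne.symm h1)
  have a2 : 1 - d.eval (1 / (1 - p)) ≠ 0 := sub_ne_zero.2 (Ne.symm h2)
  have h3 := h.cubic hp0 hp1
  generalize d.eval p = a at *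
  generalize d.eval (1 - 1 / p) = b at *
  generalize d.eval (1 / (1 - p)) = c at *
  field_simp
  linear_combination h3

/-- the braid value -/
theorem Sol.braid (h : Sol n d) {p : ℂ} (hp : p ^ 2 - p + 1 = 0) :
    d.eval p = 1 ∨ d.eval p = -2 := by
  have hp0 : p ≠ 0 := by
    rintro rfl
    norm_num at hp
  have hp1 : p ≠ 1 := by
    rintro rfl
    norm_num at hp
  have h1 : (1 : ℂ) - p ≠ 0 := sub_ne_zero.2 (Ne.symm hp1)
  have e1 : (1 : ℂ) - 1 / p = p := by
    field_simp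
    linear_combination -hp
  have e2 : (1 : ℂ) / (1 - p) = p := by
    rw [div_eq_iff h1]
    linear_combination hp
  have h2 := h.cubic hp0 hp1
  rw [e1, e2] at h2
  have h3 : (d.eval p - 1) ^ 2 * (d.eval p + 2) = 0 := by linear_combination h2
  rcases mul_eq_zero.1 h3 with h4 | h4
  · left
    exact sub_eq_zero.1 (pow_eq_zero_iff (two_ne_zero) |>.1 h4)
  · right
    linear_combination h4

end
end DR
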