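import Mathlib

/-!
# Trace decomposition for a commuting polynomial family of operators

`exists_spec`: a family `D p = ∑ k ≤ m, p ^ k • c k` of pairwise commuting endomorphisms of a finite
dimensional complex space has `finrank` many polynomial joint eigenvalues (with algebraic
multiplicity): each of them has a joint eigenvector, and the traces of all words in the `D p` are the
sums of the products of the eigenvalues.
-/

set_option autoImplicit false

namespace DR
open Polynomial Finset Module Module.End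

section joint
variable {ι : Type*} {V : Type*} [AddCommGroup V] [Module ℂ V] [FiniteDimensional ℂ V]

/-- a commuting family has a joint eigenvector in every nonzero invariant subspace -/
theorem joint_eigen (f : ι → Module.End ℂ V) (hf : ∀ i j, Commute (f i) (f j))
    (U : Submodule ℂ V) (hU : U ≠ ⊥) (hinv : ∀ i, Set.MapsTo (f i) U U) :
    ∃ v ∈ U, v ≠ 0 ∧ ∃ μ : ι → ℂ, ∀ i, f i v = μ i • v := by
  classical
  obtain ⟨U', ⟨hne, hinv', hle⟩, hmin⟩ := (wellFounded_lt (α := Submodule ℂ V)).has_min
    {W | W ≠ ⊥ ∧ (∀ i, Set.MapsTo (f i) W W) ∧ W ≤ U} ⟨U, hU, hinv, le_rfl⟩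
  have key : ∀ i, ∃ μ : ℂ, ∀ v ∈ U', f i v = μ • v := by
    intro i
    have hnt : Nontrivial U' := (Submodule.nontrivial_iff_ne_bot).2 hne
    obtain ⟨μ, hμ⟩ := Module.End.exists_eigenvalue ((f i).restrict (hinv' i))
    obtain ⟨v, hv⟩ := hμ.exists_hasEigenvector
    refine ⟨μ, ?_⟩
    set W := U' ⊓ (f i).eigenspace μ with hW
    have hWne : W ≠ ⊥ := by
      intro h0
      have : (v : V) ∈ W := by
        refine ⟨v.2, ?_⟩
        rw [SetLike.mem_coe, Module.End.mem_eigenspace_iff]
        have := hv.apply_eq_smul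
        have h2 := congrArg Subtype.val this
        simpa using h2
      rw [h0, Submodule.mem_bot] at this
      exact hv.2 (Subtype.ext this)
    have hWinv : ∀ j, Set.MapsTo (f j) W W := by
      rintro j x ⟨hx1, hx2⟩
      refine ⟨hinv' j hx1, ?_⟩
      rw [SetLike.mem_coe, Module.End.mem_eigenspace_iff] at hx2 ⊢
      have := congrArg (fun g : Module.End ℂ V => g x) (hf i j).eq
      simp only [Module.End.mul_apply] at this
      rw [this, hx2, map_smul]
    have hWle : W ≤ U' := inf_le_left
    have hWe : W = U' := by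
      by_contra hne'
      exact hmin W ⟨hWne, hWinv, hWle.trans hle⟩ (lt_of_le_of_ne hWle hne')
    intro x hx
    rw [← hWe] at hx
    exact Module.End.mem_eigenspace_iff.1 hx.2
  choose μ hμ using key
  obtain ⟨v, hv, hv0⟩ := Submodule.exists_mem_ne_zero_of_ne_bot hne
  exact ⟨v, hle hv, hv0, μ, fun i => hμ i v hv⟩

/-- the joint generalised eigenspace -/
noncomputable def gsp (f : ι → Module.End ℂ V) (χ : ι → ℂ) : Submodule ℂ V :=
  ⨅ i, (f i).maxGenEigenspace (χ i)

variable (f : ι → Module.End ℂ V)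

omit [FiniteDimensional ℂ V] in
theorem gsp_mapsTo (hf : ∀ i j, Commute (f i) (f j)) (χ : ι → ℂ) (i : ι) :
    Set.MapsTo (f i) (gsp f χ) (gsp f χ) := by
  intro x hx
  simp only [gsp, SetLike.mem_coe, Submodule.mem_iInf] at hx ⊢
  intro j
  exact (Module.End.mapsTo_maxGenEigenspace_of_comm (hf j i) (χ j)) (hx j)

omit [FiniteDimensional ℂ V] in
theorem gsp_indep (hf : ∀ i j, Commute (f i) (f j)) : iSupIndep fun χ : ι → ℂ => gsp f χ := by
  refine Module.End.independent_iInf_maxGenEigenspace_of_forall_mapsTo f fun i j φ => ?_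
  exact Module.End.mapsTo_maxGenEigenspace_of_comm (hf j i) φ

theorem gsp_top (hf : ∀ i j, Commute (f i) (f j)) : ⨆ χ : ι → ℂ, gsp f χ = ⊤ := by
  refine Module.End.iSup_iInf_maxGenEigenspace_eq_top_of_iSup_maxGenEigenspace_eq_top_of_commute f
    (fun i j _ => hf i j) fun i => ?_
  exact Module.End.iSup_maxGenEigenspace_eq_top (f i)

theorem gsp_fin (hf : ∀ i j, Commute (f i) (f j)) : {χ : ι → ℂ | gsp f χ ≠ ⊥}.Finite :=
  WellFoundedGT.finite_ne_bot_of_iSupIndep (gsp_indep f hf)

omit [FiniteDimensional ℂ V] in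
theorem coe_restrict_pow (χ : ι → ℂ) (i : ι) (hi : Set.MapsTo (f i) (gsp f χ) (gsp f χ)) (k : ℕ)
    (x : gsp f χ) : ((((f i).restrict hi - algebraMap ℂ _ (χ i)) ^ k) x : V) =
      ((f i - χ i • (1 : Module.End ℂ V)) ^ k) (x : V) := by
  induction k generalizing x with
  | zero => simp
  | succ k ih =>
    rw [pow_succ, pow_succ, Module.End.mul_apply, Module.End.mul_apply, ih]
    congr 1

/-- the trace of a word on a joint generalised eigenspace -/
theorem trace_gsp (hf : ∀ i j, Commute (f i) (f j)) (χ : ι → ℂ) (l : List ι)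
    (h : Set.MapsTo ((l.map f).prod) (gsp f χ) (gsp f χ)) :
    LinearMap.trace ℂ _ (((l.map f).prod).restrict h) =
      (l.map χ).prod * (finrank ℂ (gsp f χ) : ℂ) := by
  induction l with
  | nil =>
    have e : ((List.map f []).prod : Module.End ℂ V).restrict h = LinearMap.id := by
      ext x
      simp
    rw [e, LinearMap.trace_id]
    simp
  | cons i l ih =>
    have hl : Set.MapsTo ((l.map f).prod) (gsp f χ) (gsp f χ) := by
      clear ih h
      induction l with
      | nil => intro x hx; simpa using hx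
      | cons j l ih2 =>
        intro x hx
        rw [List.map_cons, List.prod_cons, Module.End.mul_apply]
        exact gsp_mapsTo f hf χ j (ih2 hx)
    have hi := gsp_mapsTo f hf χ i
    have e : (((i :: l).map f).prod).restrict h =
        (((l.map f).prod).restrict hl) ∘ₗ ((f i).restrict hi) := by
      have hc : Commute (f i) ((l.map f).prod) := by
        apply Commute.list_prod_right
        intro g hg
        obtain ⟨j, -, rfl⟩ := List.mem_map.1 hg
        exact hf i j
      ext x
      have := congrArg (fun g : Module.End ℂ V => g x) hc.eq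
      simp only [Module.End.mul_apply] at this
      simp only [LinearMap.coe_restrict_apply, LinearMap.comp_apply, List.map_cons, List.prod_cons,
        Module.End.mul_apply]
      exact this
    have hc : Commute (((l.map f).prod).restrict hl) ((f i).restrict hi) := by
      apply LinearMap.restrict_commute
      apply Commute.symm
      apply Commute.list_prod_right
      intro g hg
      obtain ⟨j, -, rfl⟩ := List.mem_map.1 hg
      exact hf i j
    have hn : IsNilpotent ((f i).restrict hi - algebraMap ℂ _ (χ i)) := by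
      refine Module.End.isNilpotent_iff_of_finite.mpr fun x => ?_
      have hx : (x : V) ∈ (f i).maxGenEigenspace (χ i) := (Submodule.mem_iInf _).1 x.2 i
      obtain ⟨k, hk⟩ := (Module.End.mem_maxGenEigenspace _ _ _).1 hx
      refine ⟨k, Subtype.ext ?_⟩
      rw [coe_restrict_pow f χ i hi k x, hk]
      rfl
    rw [e, LinearMap.trace_comp_eq_mul_of_commute_of_isNilpotent (χ i) hc hn, ih hl]
    simp only [List.map_cons, List.prod_cons]
    ring

/-- the trace of a word -/
theorem trace_word (hf : ∀ i j, Commute (f i) (f j)) (l : List ι) :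
    LinearMap.trace ℂ V ((l.map f).prod) =
      ∑ χ ∈ (gsp_fin f hf).toFinset, (l.map χ).prod * (finrank ℂ (gsp f χ) : ℂ) := by
  classical
  have hds := DirectSum.isInternal_submodule_of_iSupIndep_of_iSup_eq_top
    (gsp_indep f hf) (gsp_top f hf)
  have hl : ∀ χ : ι → ℂ, Set.MapsTo ((l.map f).prod) (gsp f χ) (gsp f χ) := by
    intro χ
    induction l with
    | nil => intro x hx; simpa using hx
    | cons j l ih2 =>
      intro x hx
      rw [List.map_cons, List.prod_cons, Module.End.mul_apply]
      exact gsp_mapsTo f hf χ j (ih2 hx)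
  rw [LinearMap.trace_eq_sum_trace_restrict' hds (gsp_fin f hf) hl]
  exact sum_congr rfl fun χ _ => trace_gsp f hf χ l (hl χ)

/-- joint eigenvalues with multiplicity -/
theorem exists_joint (hf : ∀ i j, Commute (f i) (f j)) :
    ∃ χ : Fin (finrank ℂ V) → ι → ℂ, (∀ k, ∃ v : V, v ≠ 0 ∧ ∀ i, f i v = χ k i • v) ∧
      ∀ l : List ι, LinearMap.trace ℂ V ((l.map f).prod) = ∑ k, (l.map (χ k)).prod := by
  classical
  set S := (gsp_fin f hf).toFinset with hS
  have hdim : finrank ℂ V = ∑ χ ∈ S, finrank ℂ (gsp f χ) := by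
    have := trace_word f hf []
    simp only [List.map_nil, List.prod_nil, one_mul] at this
    rw [Module.End.one_eq_id, LinearMap.trace_id] at this
    exact_mod_cast this
  have hcard : Fintype.card (Σ χ : S, Fin (finrank ℂ (gsp f χ.1))) = finrank ℂ V := by
    rw [Fintype.card_sigma, hdim]
    simp only [Fintype.card_fin]
    exact sum_coe_sort S (fun χ => finrank ℂ (gsp f χ))
  have e : (Σ χ : S, Fin (finrank ℂ (gsp f χ.1))) ≃ Fin (finrank ℂ V) :=
    Fintype.equivFinOfCardEq hcard
  refine ⟨fun k => (e.symm k).1.1, fun k => ?_, fun l => ?_⟩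
  · set χ := (e.symm k).1.1 with hχ
    have hχS : χ ∈ S := (e.symm k).1.2
    have hne : gsp f χ ≠ ⊥ := by
      rw [hS, Set.Finite.mem_toFinset] at hχS
      exact hχS
    obtain ⟨v, hv, hv0, μ, hμ⟩ := joint_eigen f hf (gsp f χ) hne (gsp_mapsTo f hf χ)
    refine ⟨v, hv0, fun i => ?_⟩
    rw [hμ i]
    congr 1
    -- the eigenvalue is `χ i`
    have hx : v ∈ (f i).maxGenEigenspace (χ i) := (Submodule.mem_iInf _).1 hv i
    obtain ⟨k', hk⟩ := (Module.End.mem_maxGenEigenspace _ _ _).1 hx
    have h1 : ∀ j : ℕ, ((f i - χ i • (1 : Module.End ℂ V)) ^ j) v = (μ i - χ i) ^ j • v := by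
      intro j
      induction j with
      | zero => simp
      | succ j ih =>
        rw [pow_succ', Module.End.mul_apply, ih, map_smul, LinearMap.sub_apply, hμ i,
          LinearMap.smul_apply, Module.End.one_apply, ← sub_smul, smul_smul, pow_succ]
    rw [h1 k'] at hk
    have h2 := (smul_eq_zero.1 hk).resolve_right hv0
    exact sub_eq_zero.1 (eq_zero_of_pow_eq_zero h2)
  · rw [trace_word f hf l, ← hS]
    rw [← Equiv.sum_comp e (fun k => (l.map ((e.symm k).1.1)).prod), Fintype.sum_sigma]
    simp only [Equiv.symm_apply_apply, sum_const, card_univ, Fintype.card_fin, nsmul_eq_mul]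
    rw [← sum_coe_sort S]
    exact sum_congr rfl fun χ _ => mul_comm _ _

end joint

section poly
variable {V : Type*} [AddCommGroup V] [Module ℂ V] [FiniteDimensional ℂ V]

/-- **joint eigenvalues of a commuting polynomial family**, with algebraic multiplicity -/
theorem exists_spec {m : ℕ} (c : ℕ → Module.End ℂ V) (D : ℂ → Module.End ℂ V)
    (hD : ∀ p, D p = ∑ k ∈ range (m + 1), p ^ k • c k) (hc : ∀ p q, Commute (D p) (D q)) :
    ∃ d : Fin (finrank ℂ V) → ℂ[X], (∀ k, (d k).natDegree ≤ m) ∧
      (∀ k, ∃ v : V, v ≠ 0 ∧ ∀ p, D p v = (d k).eval p • v) ∧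
      ∀ l : List ℂ, LinearMap.trace ℂ V ((l.map D).prod) =
        ∑ k, (l.map (fun p => (d k).eval p)).prod := by
  obtain ⟨χ, h1, h2⟩ := exists_joint D hc
  have h3 : ∀ k, ∃ d : ℂ[X], d.natDegree ≤ m ∧ ∀ p, χ k p = d.eval p := by
    intro k
    obtain ⟨v, hv, h⟩ := h1 k
    obtain ⟨g, hg⟩ : ∃ g : Module.Dual ℂ V, g v ≠ 0 := by
      by_contra hcon
      push Not at hcon
      exact hv ((Module.forall_dual_apply_eq_zero_iff ℂ v).1 hcon)
    refine ⟨∑ j ∈ range (m + 1), C (g (c j v) / g v) * X ^ j, ?_, fun p => ?_⟩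
    · refine natDegree_sum_le_of_forall_le _ _ fun j hj => ?_
      exact (natDegree_C_mul_X_pow_le _ _).trans (Nat.lt_succ_iff.1 (mem_range.1 hj))
    · have h4 := congrArg g (h p)
      rw [map_smul, smul_eq_mul, hD p] at h4
      simp only [LinearMap.sum_apply, LinearMap.smul_apply, map_sum, map_smul, smul_eq_mul] at h4
      rw [eval_finsetSum]
      simp only [eval_mul, eval_C, eval_pow, eval_X]
      rw [eq_comm, ← mul_left_inj' hg, ← h4, sum_mul]
      exact sum_congr rfl fun j _ => by field_simp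
  choose d hd1 hd2 using h3
  refine ⟨d, hd1, fun k => ?_, fun l => ?_⟩
  · obtain ⟨v, hv, h⟩ := h1 k
    exact ⟨v, hv, fun p => by rw [h p, hd2]⟩
  · rw [h2 l]
    refine sum_congr rfl fun k _ => ?_
    congr 1
    exact List.map_congr_left fun p _ => hd2 k p

/-- powers -/
theorem exists_spec_pow {m : ℕ} (c : ℕ → Module.End ℂ V) (D : ℂ → Module.End ℂ V)
    (hD : ∀ p, D p = ∑ k ∈ range (m + 1), p ^ k • c k) (hc : ∀ p q, Commute (D p) (D q)) :
    ∃ d : Fin (finrank ℂ V) → ℂ[X], (∀ k, (d k).natDegree ≤ m) ∧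
      (∀ k, ∃ v : V, v ≠ 0 ∧ ∀ p, D p v = (d k).eval p • v) ∧
      ∀ (p : ℂ) (M : ℕ), LinearMap.trace ℂ V (D p ^ M) = ∑ k, (d k).eval p ^ M := by
  obtain ⟨d, h1, h2, h3⟩ := exists_spec c D hD hc
  refine ⟨d, h1, h2, fun p M => ?_⟩
  have := h3 (List.replicate M p)
  simpa using this

end poly
end DR
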