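import Pool.Agent.Helper78.DR.Scalar

/-!
# From the probability variable `p` to the spectral variable `s`

`pp s = 1/2 - i (√3/2) tanh s`, `aa = i π / 6`.  For `DR.Sol n d` there is a polynomial `P` of degree
`≤ n` with `d (pp s) = P (tanh² s)`, and the functional relations take the form used in the
analysis (`d⁺ d⁻ = 1 + y`, `y⁺ y⁻ = (1-d)²`, zero of `y` of order `≥ 2n+2` at `0`).
-/

set_option autoImplicit false

namespace DR
open Polynomial Finset Complex

noncomputable section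

/-- `a = i π / 6` -/
def aa : ℂ := I * (Real.pi / 6 : ℝ)

/-- the tile probability as a function of the spectral variable -/
def pp (s : ℂ) : ℂ := 1 / 2 - I * ((Real.sqrt 3 / 2 : ℝ) : ℂ) * Complex.tanh s

theorem sqrt3_sq : ((Real.sqrt 3 : ℝ) : ℂ) ^ 2 = 3 := by
  rw [← ofReal_pow, Real.sq_sqrt (by norm_num)]
  norm_num

theorem cosh_aa : Complex.cosh aa = ((Real.sqrt 3 / 2 : ℝ) : ℂ) := by
  rw [aa, mul_comm, Complex.cosh_mul_I, ← Complex.ofReal_cos, Real.cos_pi_div_six]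

theorem sinh_aa : Complex.sinh aa = 1 / 2 * I := by
  rw [aa, mul_comm, Complex.sinh_mul_I, ← Complex.ofReal_sin, Real.sin_pi_div_six]
  norm_num

theorem cosh_two_aa : Complex.cosh (2 * aa) = 1 / 2 := by
  rw [Complex.cosh_two_mul, cosh_aa, sinh_aa]
  have := sqrt3_sq
  push_cast
  have hI := I_sq
  linear_combination (1 / 4 : ℂ) * this + (1 / 4 : ℂ) * hI

theorem sinh_two_aa : Complex.sinh (2 * aa) = I * ((Real.sqrt 3 / 2 : ℝ) : ℂ) := by
  rw [Complex.sinh_two_mul, cosh_aa, sinh_aa]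
  ring

theorem tanh_mul_cosh {s : ℂ} (h : Complex.cosh s ≠ 0) :
    Complex.tanh s * Complex.cosh s = Complex.sinh s := by
  rw [Complex.tanh_eq_sinh_div_cosh, div_mul_cancel₀ _ h]

theorem cosh_add_two_aa {s : ℂ} (h : Complex.cosh s ≠ 0) :
    Complex.cosh (s + 2 * aa) = Complex.cosh s * (1 - pp s) := by
  rw [Complex.cosh_add, cosh_two_aa, sinh_two_aa, pp]
  linear_combination (-(I * ((Real.sqrt 3 / 2 : ℝ) : ℂ))) * tanh_mul_cosh h

theorem cosh_sub_two_aa {s : ℂ} (h : Complex.cosh s ≠ 0) :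
    Complex.cosh (s - 2 * aa) = Complex.cosh s * pp s := by
  rw [Complex.cosh_sub, cosh_two_aa, sinh_two_aa, pp]
  linear_combination (I * ((Real.sqrt 3 / 2 : ℝ) : ℂ)) * tanh_mul_cosh h

theorem pp_mul_cosh {s : ℂ} (h : Complex.cosh s ≠ 0) :
    pp s * Complex.cosh s = 1 / 2 * Complex.cosh s -
      I * ((Real.sqrt 3 / 2 : ℝ) : ℂ) * Complex.sinh s := by
  rw [pp, ← tanh_mul_cosh h]
  ring

theorem pp_add {s : ℂ} (h : Complex.cosh s ≠ 0) (h' : Complex.cosh (s + 2 * aa) ≠ 0) :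
    pp (s + 2 * aa) = 1 / (1 - pp s) := by
  have h1 : 1 - pp s ≠ 0 := by
    intro h0
    rw [cosh_add_two_aa h, h0, mul_zero] at h'
    exact h' rfl
  rw [eq_div_iff h1]
  have h2 := pp_mul_cosh h'
  have h3 := cosh_add_two_aa h
  rw [h3] at h2
  rw [Complex.sinh_add, cosh_two_aa, sinh_two_aa] at h2
  have h4 := pp_mul_cosh h
  have h5 := sqrt3_sq
  have hI := I_sq
  have h6 : Complex.cosh s * (pp (s + 2 * aa) * (1 - pp s)) = Complex.cosh s * 1 := by
    push_cast at h2 h4 ⊢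
    linear_combination h2 - (1 / 2 : ℂ) * h4 - (Complex.cosh s * (1 / 4 : ℂ)) * (I ^ 2) * h5 -
      (3 / 4 : ℂ) * Complex.cosh s * hI
  exact mul_left_cancel₀ h h6

theorem pp_neg (s : ℂ) : pp (-s) = 1 - pp s := by
  rw [pp, pp, Complex.tanh_neg]
  ring

theorem pp_sub {s : ℂ} (h : Complex.cosh s ≠ 0) (h' : Complex.cosh (s - 2 * aa) ≠ 0) :
    pp (s - 2 * aa) = 1 - 1 / pp s := by
  have h1 : Complex.cosh (-s) ≠ 0 := by rwa [Complex.cosh_neg]
  have h2 : Complex.cosh (-s + 2 * aa) ≠ 0 := by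
    rwa [show -s + 2 * aa = -(s - 2 * aa) by ring, Complex.cosh_neg]
  have h3 := pp_add h1 h2
  rw [show -s + 2 * aa = -(s - 2 * aa) by ring, pp_neg, pp_neg, sub_sub_cancel] at h3
  linear_combination -h3

variable {n : ℕ} {d : ℂ[X]}

/-- the even part of a symmetric polynomial -/
theorem exists_even {n : ℕ} {e : ℂ[X]} (h : e.natDegree ≤ 2 * n) (he : ∀ q : ℂ, e.eval (-q) = e.eval q)
    (κ : ℂ) (hκ : κ ≠ 0) :
    ∃ P : ℂ[X], P.natDegree ≤ n ∧ ∀ q : ℂ, e.eval q = P.eval (κ * q ^ 2) := by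
  have h1 : e.comp (C (-1) * X) = e := by
    refine Polynomial.funext fun q => ?_
    rw [eval_comp, eval_mul, eval_C, eval_X, neg_one_mul, he]
  have h2 : ∀ k, k % 2 = 1 → e.coeff k = 0 := by
    intro k hk
    have h3 := congrArg (fun f : ℂ[X] => f.coeff k) h1
    simp only [comp_C_mul_X_coeff] at h3
    have h4 : (-1 : ℂ) ^ k = -1 := Odd.neg_one_pow (Nat.odd_iff.2 hk)
    rw [h4] at h3
    linear_combination (-1 / 2 : ℂ) * h3
  refine ⟨∑ j ∈ range (n + 1), C (e.coeff (2 * j) / κ ^ j) * X ^ j, ?_, fun q => ?_⟩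
  · refine natDegree_sum_le_of_forall_le _ _ fun j hj => ?_
    exact (natDegree_C_mul_X_pow_le _ _).trans (Nat.lt_succ_iff.1 (mem_range.1 hj))
  · have h5 : e.natDegree < 2 * (n + 1) := by omega
    rw [eval_finsetSum, e.eval_eq_sum_range' h5]
    have h6 : ∀ N : ℕ, ∑ k ∈ range (2 * N), e.coeff k * q ^ k =
        ∑ j ∈ range N, e.coeff (2 * j) * q ^ (2 * j) := by
      intro N
      induction N with
      | zero => simp
      | succ N ih =>
        rw [show 2 * (N + 1) = 2 * N + 1 + 1 by ring, sum_range_succ, sum_range_succ, ih,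
          sum_range_succ, h2 (2 * N + 1) (by omega)]
        ring
    rw [h6]
    refine sum_congr rfl fun j _ => ?_
    simp only [eval_mul, eval_C, eval_pow, eval_X]
    have := pow_ne_zero j hκ
    rw [mul_pow, pow_mul]
    field_simp

/-- **the spectral form**: everything the analysis needs -/
theorem Sol.spectral (h : Sol n d) : ∃ P : ℂ[X], P.natDegree ≤ n ∧
    (∀ s, d.eval (pp s) = P.eval (Complex.tanh s ^ 2)) ∧ P.eval (-1 / 3) = 1 ∧
    (P.eval 1 = 1 ∨ P.eval 1 = -2) := by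
  set e : ℂ[X] := d.comp (X + C (1 / 2)) with he
  have e1 : e.natDegree ≤ 2 * n := by
    rw [he, natDegree_comp]
    have : (X + C (1 / 2) : ℂ[X]).natDegree = 1 := natDegree_X_add_C _
    rw [this, mul_one]
    exact h.deg
  have e2 : ∀ q : ℂ, e.eval (-q) = e.eval q := by
    intro q
    rw [he, eval_comp, eval_comp]
    simp only [eval_add, eval_X, eval_C]
    rw [← h.pal]
    congr 1
    ring
  obtain ⟨P, hP1, hP2⟩ := exists_even e1 e2 (-4 / 3) (by norm_num)
  have key : ∀ q : ℂ, d.eval (q + 1 / 2) = P.eval (-4 / 3 * q ^ 2) := by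
    intro q
    rw [← hP2, he, eval_comp]
    simp
  refine ⟨P, hP1, fun s => ?_, ?_, ?_⟩
  · have h1 := key (pp s - 1 / 2)
    rw [sub_add_cancel] at h1
    rw [h1]
    congr 1
    rw [pp]
    have h5 := sqrt3_sq
    push_cast
    linear_combination (-(1 / 3 : ℂ)) * I ^ 2 * Complex.tanh s ^ 2 * h5 - Complex.tanh s ^ 2 * I_sq
  · have h1 := key (1 / 2)
    norm_num at h1
    rw [h.one] at h1
    rw [show (-1 / 3 : ℂ) = -(1 / 3) by norm_num, ← h1]
  · have h5 := sqrt3_sq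
    have h1 := key (I * ((Real.sqrt 3 / 2 : ℝ) : ℂ))
    have h2 : (-4 / 3 : ℂ) * (I * ((Real.sqrt 3 / 2 : ℝ) : ℂ)) ^ 2 = 1 := by
      push_cast
      linear_combination (-(1 / 3 : ℂ)) * I ^ 2 * h5 - I_sq
    rw [h2] at h1
    rw [← h1]
    refine h.braid ?_
    push_cast
    linear_combination (1 / 4 : ℂ) * I ^ 2 * h5 + (3 / 4 : ℂ) * I_sq

/-- the spectral form with the precise braid value -/
theorem Sol.spectral' (h : Sol n d) : ∃ P : ℂ[X], P.natDegree ≤ n ∧
    (∀ s, d.eval (pp s) = P.eval (Complex.tanh s ^ 2)) ∧ P.eval (-1 / 3) = 1 ∧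
    (∀ p : ℂ, p ^ 2 - p + 1 = 0 → P.eval 1 = d.eval p) ∧
    ∀ p : ℂ, d.eval p = P.eval (-4 / 3 * (p - 1 / 2) ^ 2) := by
  set e : ℂ[X] := d.comp (X + C (1 / 2)) with he
  have e1 : e.natDegree ≤ 2 * n := by
    rw [he, natDegree_comp]
    have : (X + C (1 / 2) : ℂ[X]).natDegree = 1 := natDegree_X_add_C _
    rw [this, mul_one]
    exact h.deg
  have e2 : ∀ q : ℂ, e.eval (-q) = e.eval q := by
    intro q
    rw [he, eval_comp, eval_comp]
    simp only [eval_add, eval_X, eval_C]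
    rw [← h.pal]
    congr 1
    ring
  obtain ⟨P, hP1, hP2⟩ := exists_even e1 e2 (-4 / 3) (by norm_num)
  have key : ∀ p : ℂ, d.eval p = P.eval (-4 / 3 * (p - 1 / 2) ^ 2) := by
    intro p
    rw [← hP2, he, eval_comp]
    simp
  refine ⟨P, hP1, fun s => ?_, ?_, fun p hp => ?_, key⟩
  · rw [key]
    congr 1
    rw [pp]
    have h5 := sqrt3_sq
    push_cast
    linear_combination (-(1 / 3 : ℂ)) * I ^ 2 * Complex.tanh s ^ 2 * h5 - Complex.tanh s ^ 2 * I_sq
  · have h1 := key 1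
    norm_num at h1
    rw [h.one] at h1
    rw [show (-1 / 3 : ℂ) = -(1 / 3) by norm_num, ← h1]
  · rw [key p]
    congr 1
    linear_combination (4 / 3 : ℂ) * hp

/-- `y⁺ y⁻ = (1-d)²` and the cubic relation in the spectral variable -/
theorem Sol.cubic_s (h : Sol n d) {s : ℂ} (h0 : Complex.cosh s ≠ 0)
    (h1 : Complex.cosh (s + 2 * aa) ≠ 0) (h2 : Complex.cosh (s - 2 * aa) ≠ 0) :
    d.eval (pp s) * d.eval (pp (s - 2 * aa)) * d.eval (pp (s + 2 * aa)) =
      d.eval (pp s) + d.eval (pp (s - 2 * aa)) + d.eval (pp (s + 2 * aa)) - 2 := by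
  have g0 : pp s ≠ 0 := by
    intro h3
    rw [cosh_sub_two_aa h0, h3, mul_zero] at h2
    exact h2 rfl
  have g1 : pp s ≠ 1 := by
    intro h3
    rw [cosh_add_two_aa h0, h3, sub_self, mul_zero] at h1
    exact h1 rfl
  rw [pp_add h0 h1, pp_sub h0 h2]
  exact h.cubic g0 g1

theorem analyticAt_tanh {s : ℂ} (h : Complex.cosh s ≠ 0) : AnalyticAt ℂ Complex.tanh s := by
  have : Complex.tanh = fun z => Complex.sinh z / Complex.cosh z := by
    ext z
    exact Complex.tanh_eq_sinh_div_cosh z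
  rw [this]
  exact AnalyticAt.div (by fun_prop) (by fun_prop) h

theorem analyticAt_pp {s : ℂ} (h : Complex.cosh s ≠ 0) : AnalyticAt ℂ pp s := by
  unfold pp
  have := analyticAt_tanh h
  fun_prop

/-- `y s = d(s+a) d(s-a) - 1` -/
def yf (d : ℂ[X]) (s : ℂ) : ℂ := d.eval (pp (s + aa)) * d.eval (pp (s - aa)) - 1

theorem Sol.yy_rel (h : Sol n d) {s : ℂ} (h0 : Complex.cosh s ≠ 0)
    (h1 : Complex.cosh (s + 2 * aa) ≠ 0) (h2 : Complex.cosh (s - 2 * aa) ≠ 0) :
    yf d (s + aa) * yf d (s - aa) = (1 - d.eval (pp s)) ^ 2 := by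
  unfold yf
  rw [show s + aa + aa = s + 2 * aa by ring, show s + aa - aa = s by ring,
    show s - aa + aa = s by ring, show s - aa - aa = s - 2 * aa by ring]
  linear_combination (d.eval (pp s)) * h.cubic_s h0 h1 h2

theorem cosh_aa_ne : Complex.cosh aa ≠ 0 := by
  rw [cosh_aa]
  have : (0:ℝ) < Real.sqrt 3 / 2 := by positivity
  exact_mod_cast this.ne'

/-- `1 - pp (s+a) = i sinh s / cosh (s+a)` -/
theorem one_sub_pp {s : ℂ} (h : Complex.cosh (s + aa) ≠ 0) :
    1 - pp (s + aa) = I * Complex.sinh s / Complex.cosh (s + aa) := by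
  rw [eq_div_iff h, sub_mul, pp_mul_cosh h, Complex.cosh_add, Complex.sinh_add, cosh_aa, sinh_aa]
  have h5 := sqrt3_sq
  push_cast
  linear_combination (1 / 4 : ℂ) * I * Complex.sinh s * h5 +
    (1 / 4 : ℂ) * (Real.sqrt 3 : ℂ) * Complex.cosh s * I_sq

theorem one_sub_pp' {s : ℂ} (h : Complex.cosh (s + aa) ≠ 0) (h' : Complex.cosh (s - aa) ≠ 0) :
    pp (s - aa) = 1 - 1 / pp (s + aa) := by
  have e : s + aa - 2 * aa = s - aa := by ring
  have := pp_sub (s := s + aa) h (by rwa [e])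
  rwa [e] at this

/-- the zero of `y` at `0` -/
theorem Sol.order (h : Sol n d) : ((2 * n + 2 : ℕ) : ℕ∞) ≤ analyticOrderAt (yf d) 0 := by
  obtain ⟨Q, hQ⟩ := h.fus
  have c1 : Complex.cosh (0 + aa) ≠ 0 := by rw [zero_add]; exact cosh_aa_ne
  have c2 : Complex.cosh (0 - aa) ≠ 0 := by rw [zero_sub, Complex.cosh_neg]; exact cosh_aa_ne
  have p1 : pp (0 + aa) = 1 := by
    have := one_sub_pp c1
    rw [Complex.sinh_zero, mul_zero, zero_div] at this
    linear_combination -this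
  have a1 : AnalyticAt ℂ (fun s : ℂ => pp (s + aa)) 0 :=
    AnalyticAt.fun_comp (analyticAt_pp c1) (by fun_prop)
  have a2 : AnalyticAt ℂ (fun s : ℂ => pp (s - aa)) 0 :=
    AnalyticAt.fun_comp (analyticAt_pp c2) (by fun_prop)
  have poly : ∀ (P : ℂ[X]) {f : ℂ → ℂ}, AnalyticAt ℂ f 0 → AnalyticAt ℂ (fun s => P.eval (f s)) 0 := by
    intro P f hf
    have := AnalyticAt.aeval_polynomial hf P
    simpa using this
  have ha : AnalyticAt ℂ (yf d) 0 := by
    unfold yf
    exact ((poly d a1).mul (poly d a2)).sub analyticAt_const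
  rw [natCast_le_analyticOrderAt ha]
  -- dslope of sinh
  refine ⟨fun s => (dslope Complex.sinh 0 s * (I / Complex.cosh (s + aa))) ^ (2 * n + 2) *
    Q.eval (pp (s + aa)) / pp (s + aa) ^ (2 * n), ?_, ?_⟩
  · have b1 : AnalyticAt ℂ (dslope Complex.sinh 0) 0 := by
      have : AnalyticAt ℂ Complex.sinh 0 := by fun_prop
      obtain ⟨p, hp⟩ := this
      exact ⟨_, hp.has_fpower_series_dslope_fslope⟩
    have b2 : AnalyticAt ℂ (fun s : ℂ => I / Complex.cosh (s + aa)) 0 :=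
      AnalyticAt.div analyticAt_const (by fun_prop) c1
    refine AnalyticAt.div (((b1.mul b2).pow _).mul (poly Q a1)) (a1.pow _) ?_
    rw [p1]
    simp
  · have e1 : ∀ᶠ s in nhds (0:ℂ), Complex.cosh (s + aa) ≠ 0 := by
      have : ContinuousAt (fun s : ℂ => Complex.cosh (s + aa)) 0 := by fun_prop
      exact this.eventually_ne c1
    have e2 : ∀ᶠ s in nhds (0:ℂ), Complex.cosh (s - aa) ≠ 0 := by
      have : ContinuousAt (fun s : ℂ => Complex.cosh (s - aa)) 0 := by fun_prop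
      exact this.eventually_ne c2
    have e3 : ∀ᶠ s in nhds (0:ℂ), pp (s + aa) ≠ 0 := by
      refine a1.continuousAt.eventually_ne ?_
      rw [p1]
      exact one_ne_zero
    filter_upwards [e1, e2, e3] with s h1 h2 h3
    have h4 := hQ _ h3
    rw [one_sub_pp h1, ← one_sub_pp' h1 h2] at h4
    have h5 : Complex.sinh s = s * dslope Complex.sinh 0 s := by
      have := sub_smul_dslope Complex.sinh 0 s
      rw [sub_zero, Complex.sinh_zero, sub_zero, smul_eq_mul] at this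
      exact this.symm
    have h6 := pow_ne_zero (2 * n) h3
    rw [sub_zero, smul_eq_mul]
    have h7 : yf d s = (I * Complex.sinh s / Complex.cosh (s + aa)) ^ (2 * n + 2) *
        Q.eval (pp (s + aa)) / pp (s + aa) ^ (2 * n) := by
      rw [eq_div_iff h6, ← h4, yf]
      ring
    rw [h7, h5, show I * (s * dslope Complex.sinh 0 s) / Complex.cosh (s + aa) =
      s * (dslope Complex.sinh 0 s * (I / Complex.cosh (s + aa))) by ring, mul_pow]
    ring

end
end DR
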